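import Pool.Agent.Helper78.W3.StD

/-!
# W3 MODULE Lw1: elementary lowering facts
-/

set_option autoImplicit false

namespace Pool.Agent.Helper37.W3

open Pool.Agent.Helper78.W3 Pool.Agent.Helper14.W3
open Pool.Agent.Helper14.CV (Homog EqC act Tl)

/-! ### Identities in a ring -/

private theorem ring1 {R : Type*} [Ring R] (A B X Y : R) :
    A * B - 1 - X - Y = (A - 1 - X) * B + (1 + X) * (B - 1 - Y) + X * Y := by
  noncomm_ring

private theorem ring2 {R : Type*} [Ring R] (P D A B X Y : R) :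
    P - 1 - X - Y = (P - D * A * B) + ((D - 1) * (A * B) + (A * B - 1 - X - Y)) := by
  noncomm_ring

private theorem ring3 {R : Type*} [Ring R] (A O X : R) :
    A * (1 + O) - 1 - (X + O) = (A - 1 - X) * (1 + O) + X * O := by
  noncomm_ring


private theorem ring5 {R : Type*} [Ring R] (D N : R) (h : D * N = -(1 + D) * N * D) :
    D * N + N * D = -(D * N * D) := by
  have e : -(1 + D) * N * D + N * D = -(D * N * D) := by noncomm_ring
  rw [← h] at e
  exact e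

/-! ### Arithmetic -/

private theorem ex_m (a d : ℤ) (h : (a * d) % 3 = 1) :
    ¬ 3 ∣ a ∧ ¬ 3 ∣ d ∧ ∃ m : ℕ, (9 : ℤ) ∣ d * 4 ^ m - a := by
  have h3 := Int.mul_emod a d 3
  rw [h] at h3
  have ha : a % 3 = 0 ∨ a % 3 = 1 ∨ a % 3 = 2 := by omega
  have hd : d % 3 = 0 ∨ d % 3 = 1 ∨ d % 3 = 2 := by omega
  have key : (a % 3 = 1 ∧ d % 3 = 1) ∨ (a % 3 = 2 ∧ d % 3 = 2) := by
    rcases ha with ha | ha | ha <;> rcases hd with hd | hd | hd <;> rw [ha, hd] at h3 <;> omega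
  refine ⟨by omega, by omega, ?_⟩
  have h9 : (9 : ℤ) ∣ d - a ∨ (9 : ℤ) ∣ d * 4 - a ∨ (9 : ℤ) ∣ d * 16 - a := by omega
  rcases h9 with h9 | h9 | h9
  · exact ⟨0, by simpa using h9⟩
  · exact ⟨1, by simpa using h9⟩
  · exact ⟨2, by norm_num; exact h9⟩

private theorem ex_b (a b : ℤ) (h : ¬ 3 ∣ a) : ∃ β : ℕ, (9 : ℤ) ∣ b - β * a := by
  have h1 : IsCoprime (3 : ℤ) a := (Int.prime_three.irreducible.coprime_iff_not_dvd).2 h
  have h2 : IsCoprime ((3 : ℤ) ^ 2) a := h1.pow_left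
  obtain ⟨u, v, huv⟩ := h2
  have h0 : 0 ≤ (b * v) % 9 := Int.emod_nonneg _ (by norm_num)
  refine ⟨((b * v) % 9).toNat, ?_⟩
  rw [Int.toNat_of_nonneg h0]
  have h4 : (b * v) % 9 = b * v - 9 * (b * v / 9) := by
    have := Int.emod_add_mul_ediv (b * v) 9
    linarith
  rw [h4]
  refine ⟨b * u + (b * v / 9) * a, ?_⟩
  linear_combination b * (-huv)

section

variable {r s : ℕ}

private theorem neg1_smul (O : Module.End (ZMod 3) (Fn3 (3 ^ r) (3 ^ s))) :
    (-1 : ZMod 3) • O = -O := by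
  apply LinearMap.ext
  intro F
  funext x y
  change (-1 : ZMod 3) * (O F x y) = -(O F x y)
  ring

private theorem neg_mul_end (O O' : Module.End (ZMod 3) (Fn3 (3 ^ r) (3 ^ s))) :
    (-O) * O' = -(O * O') := rfl

private theorem mul_neg_end (O O' : Module.End (ZMod 3) (Fn3 (3 ^ r) (3 ^ s))) :
    O * (-O') = -(O * O') := by
  apply LinearMap.ext
  intro F
  exact map_neg O (O' F)

private theorem lw_neg (hL : S3Low0) {O : Module.End (ZMod 3) (Fn3 (3 ^ r) (3 ^ s))} {k : ℤ}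
    (h : Lw O k) : Lw (-O) k := by
  have := (hL r s).2.2.1 O (-1) k h
  rwa [neg1_smul] at this

private theorem lw_add (hL : S3Low0) {O O' : Module.End (ZMod 3) (Fn3 (3 ^ r) (3 ^ s))} {k : ℤ}
    (h : Lw O k) (h' : Lw O' k) : Lw (O + O') k := (hL r s).2.1 O O' k h h'

private theorem lw_sub (hL : S3Low0) {O O' : Module.End (ZMod 3) (Fn3 (3 ^ r) (3 ^ s))} {k : ℤ}
    (h : Lw O k) (h' : Lw O' k) : Lw (O - O') k := by
  rw [sub_eq_add_neg]
  exact lw_add hL h (lw_neg hL h')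

private theorem lw_mul (hL : S3Low0) {O O' : Module.End (ZMod 3) (Fn3 (3 ^ r) (3 ^ s))}
    {k k' l : ℤ} (h : Lw O k) (h' : Lw O' k') (hl : k + k' = l) : Lw (O * O') l := by
  subst hl
  exact (hL r s).1 O O' k k' h h'

private theorem lw_mono (hL : S3Low0) {O : Module.End (ZMod 3) (Fn3 (3 ^ r) (3 ^ s))}
    {k k' : ℤ} (h : Lw O k) (hk : k' ≤ k) : Lw O k' := (hL r s).2.2.2.1 O k k' hk h

private theorem lw_smul (hL : S3Low0) {O : Module.End (ZMod 3) (Fn3 (3 ^ r) (3 ^ s))} {k : ℤ}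
    (c : ZMod 3) (h : Lw O k) : Lw (c • O) k := (hL r s).2.2.1 O c k h

private theorem lw_one (hL : S3Low0) :
    Lw (1 : Module.End (ZMod 3) (Fn3 (3 ^ r) (3 ^ s))) 0 := (hL r s).2.2.2.2.2.1

private theorem lw_dX (hL : S3Low0) :
    Lw (dX : Module.End (ZMod 3) (Fn3 (3 ^ r) (3 ^ s))) 1 := (hL r s).2.2.2.2.2.2.1

private theorem lw_dY (hL : S3Low0) :
    Lw (dY : Module.End (ZMod 3) (Fn3 (3 ^ r) (3 ^ s))) 1 := (hL r s).2.2.2.2.2.2.2.1

private theorem comm (hL : S3Low0) :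
    (dX * dY : Module.End (ZMod 3) (Fn3 (3 ^ r) (3 ^ s))) = dY * dX := (hL r s).2.2.2.2.2.2.2.2.1

private theorem lw_pow (hL : S3Low0) {O : Module.End (ZMod 3) (Fn3 (3 ^ r) (3 ^ s))}
    (h : Lw O 0) (n : ℕ) : Lw (O ^ n) 0 := by
  induction n with
  | zero => rw [pow_zero]; exact lw_one hL
  | succ n ih => rw [pow_succ]; exact lw_mul hL ih h (by norm_num)

private theorem lw_one_add (hL : S3Low0) {O : Module.End (ZMod 3) (Fn3 (3 ^ r) (3 ^ s))}
    (h : Lw O 1) : Lw (1 + O) 0 := lw_add hL (lw_one hL) (lw_mono hL h (by norm_num))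

/-- `(1 + O)^n = 1 + n O` up to lowering `2`. -/
private theorem lw_binom (hL : S3Low0) {O : Module.End (ZMod 3) (Fn3 (3 ^ r) (3 ^ s))}
    (h : Lw O 1) (n : ℕ) : Lw ((1 + O) ^ n - 1 - (n : ZMod 3) • O) 2 := by
  induction n with
  | zero =>
    have e : (1 + O) ^ 0 - 1 - ((0 : ℕ) : ZMod 3) • O = 0 := by
      rw [pow_zero, Nat.cast_zero, zero_smul, sub_self, sub_zero]
    rw [e]
    have := lw_smul hL (0 : ZMod 3) (lw_mul hL h h (by norm_num : (1 : ℤ) + 1 = 2))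
    rwa [zero_smul] at this
  | succ n ih =>
    have e : ((n + 1 : ℕ) : ZMod 3) • O = (n : ZMod 3) • O + O := by
      rw [Nat.cast_add, Nat.cast_one, add_smul, one_smul]
    rw [pow_succ, e, ring3]
    exact lw_add hL (lw_mul hL ih (lw_one_add hL h) (by norm_num))
      (lw_mul hL (lw_smul hL _ h) h (by norm_num))

private theorem lw_powD (hL : S3Low0) {O : Module.End (ZMod 3) (Fn3 (3 ^ r) (3 ^ s))}
    (h : Lw (O - 1) 2) (n : ℕ) : Lw (O ^ n - 1) 2 ∧ Lw (O ^ n) 0 := by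
  have h0 : Lw O 0 := by
    have := lw_add hL (lw_mono hL h (by norm_num : (0 : ℤ) ≤ 2)) (lw_one hL)
    rwa [sub_add_cancel] at this
  refine ⟨?_, lw_pow hL h0 n⟩
  induction n with
  | zero =>
    rw [pow_zero, sub_self]
    have := lw_smul hL (0 : ZMod 3) h
    rwa [zero_smul] at this
  | succ n ih =>
    have e : O ^ (n + 1) - 1 = (O ^ n - 1) * O + (O - 1) := by
      rw [pow_succ, sub_mul, one_mul, sub_add_sub_cancel]
    rw [e]
    exact lw_add hL (lw_mul hL ih h0 (by norm_num)) h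

/-- The normal form up to lowering `2`. -/
private theorem nf2 (hL : S3Low0) (hN : S3Nf) (a b c d : ℤ) (m β γ : ℕ) (ha : ¬ 3 ∣ a)
    (hd : ¬ 3 ∣ d) (hm : (9 : ℤ) ∣ d * 4 ^ m - a) (hb : (9 : ℤ) ∣ b - β * a)
    (hc : (9 : ℤ) ∣ c - γ * d) :
    Lw (op3 a b c d - 1 - (β : ZMod 3) • dX - (γ : ZMod 3) • dY :
      Module.End (ZMod 3) (Fn3 (3 ^ r) (3 ^ s))) 2 := by
  have h7 := (hN r s).2 a b c d m β γ ha hd hm hb hc
  obtain ⟨hD, -⟩ := lw_powD hL (hN r s).1 m
  rw [ring2 _ (oD ^ m) ((1 + dX) ^ β) ((1 + dY) ^ γ)]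
  refine lw_add hL (lw_mono hL h7 (by norm_num)) (lw_add hL (lw_mul hL hD
    (lw_mul hL (lw_pow hL (lw_one_add hL (lw_dX hL)) β)
      (lw_pow hL (lw_one_add hL (lw_dY hL)) γ) (by norm_num : (0 : ℤ) + 0 = 0))
      (by norm_num)) ?_)
  rw [ring1]
  refine lw_add hL (lw_add hL (lw_mul hL (lw_binom hL (lw_dX hL) β)
    (lw_pow hL (lw_one_add hL (lw_dY hL)) γ) (by norm_num))
    (lw_mul hL (lw_one_add hL (lw_smul hL _ (lw_dX hL))) (lw_binom hL (lw_dY hL) γ)
      (by norm_num))) ?_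
  exact lw_mul hL (lw_smul hL _ (lw_dX hL)) (lw_smul hL _ (lw_dY hL)) (by norm_num)

/-! ### The operator `oN` -/

private theorem oN_apply (F : Fn3 (3 ^ r) (3 ^ s)) (x : ZMod (3 ^ r)) (y : ZMod (3 ^ s)) :
    oN F x y = F (-x) (-y) := by
  change F ((((0 : ℤ) : ZMod (3 ^ r)) + ((1 : ℤ) : ZMod (3 ^ r)) * x) *
    (((-1 : ℤ) : ZMod (3 ^ r)) + 9 * ((0 : ℤ) : ZMod (3 ^ r)) * x)⁻¹)
    ((((0 : ℤ) : ZMod (3 ^ s)) + ((-1 : ℤ) : ZMod (3 ^ s)) * y) *
    (((1 : ℤ) : ZMod (3 ^ s)) + 9 * ((0 : ℤ) : ZMod (3 ^ s)) * y)⁻¹) = F (-x) (-y)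
  have e1 : (((-1 : ℤ) : ZMod (3 ^ r)) + 9 * ((0 : ℤ) : ZMod (3 ^ r)) * x)⁻¹ = -1 := by
    rw [Int.cast_zero, mul_zero, zero_mul, add_zero, Int.cast_neg, Int.cast_one,
      ZMod.inv_neg_one]
  have e2 : (((1 : ℤ) : ZMod (3 ^ s)) + 9 * ((0 : ℤ) : ZMod (3 ^ s)) * y)⁻¹ = 1 := by
    rw [Int.cast_zero, mul_zero, zero_mul, add_zero, Int.cast_one, ZMod.inv_one]
  rw [e1, e2]
  congr 1
  · rw [Int.cast_zero, Int.cast_one]; ring
  · rw [Int.cast_zero, Int.cast_neg, Int.cast_one]; ring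

private theorem dX_apply (F : Fn3 (3 ^ r) (3 ^ s)) (x : ZMod (3 ^ r)) (y : ZMod (3 ^ s)) :
    dX F x y = F (x + 1) y - F x y := rfl

private theorem dY_apply (F : Fn3 (3 ^ r) (3 ^ s)) (x : ZMod (3 ^ r)) (y : ZMod (3 ^ s)) :
    dY F x y = F x (y + 1) - F x y := rfl

private theorem dX_oN : (dX * oN : Module.End (ZMod 3) (Fn3 (3 ^ r) (3 ^ s))) =
    -(1 + dX) * oN * dX := by
  apply LinearMap.ext
  intro F
  funext x y
  rw [Module.End.mul_apply, Module.End.mul_apply, Module.End.mul_apply, neg_add, LinearMap.add_apply,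
    LinearMap.neg_apply, LinearMap.neg_apply, Module.End.one_apply, Pi.add_apply, Pi.add_apply,
    Pi.neg_apply, Pi.neg_apply, Pi.neg_apply, Pi.neg_apply]
  rw [dX_apply, dX_apply, oN_apply, oN_apply, oN_apply, oN_apply, dX_apply, dX_apply]
  have e : -(x + 1) + 1 = -x := by ring
  rw [e]
  ring

private theorem dY_oN : (dY * oN : Module.End (ZMod 3) (Fn3 (3 ^ r) (3 ^ s))) =
    -(1 + dY) * oN * dY := by
  apply LinearMap.ext
  intro F
  funext x y
  rw [Module.End.mul_apply, Module.End.mul_apply, Module.End.mul_apply, neg_add, LinearMap.add_apply,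
    LinearMap.neg_apply, LinearMap.neg_apply, Module.End.one_apply, Pi.add_apply, Pi.add_apply,
    Pi.neg_apply, Pi.neg_apply, Pi.neg_apply, Pi.neg_apply]
  rw [dY_apply, dY_apply, oN_apply, oN_apply, oN_apply, oN_apply, dY_apply, dY_apply]
  have e : -(y + 1) + 1 = -y := by ring
  rw [e]
  ring

private theorem comm1 {R : Type*} [Ring R] (D N : R) (h : D * N = N * D) :
    Commute D (-(1 + N)) := by
  have hc : Commute D N := h
  exact ((Commute.one_right D).add_right hc).neg_right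

private theorem pow_mul_oN {R : Type*} [Ring R] (D N : R) (h : D * N = -(1 + D) * N * D) (i : ℕ) :
    D ^ i * N = (-(1 + D)) ^ i * N * D ^ i := by
  have hc : Commute D (-(1 + D)) := ((Commute.one_right D).add_right (Commute.refl D)).neg_right
  induction i with
  | zero => rw [pow_zero, pow_zero, one_mul, mul_one]
  | succ i ih =>
    rw [pow_succ' D i, mul_assoc D, ih]
    have h1 : D * (-(1 + D)) ^ i = (-(1 + D)) ^ i * D := (hc.pow_right i).eq
    calc D * ((-(1 + D)) ^ i * N * D ^ i) = (D * (-(1 + D)) ^ i) * N * D ^ i := by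
          simp only [mul_assoc]
      _ = (-(1 + D)) ^ i * (D * N) * D ^ i := by rw [h1]; simp only [mul_assoc]
      _ = (-(1 + D)) ^ (i + 1) * N * (D * D ^ i) := by
          rw [h, pow_succ]; simp only [mul_assoc]

private theorem lw_oN (hL : S3Low0) :
    Lw (oN : Module.End (ZMod 3) (Fn3 (3 ^ r) (3 ^ s))) 0 := by
  intro d F hF i j hij
  rw [sub_zero] at hij
  have hc : Commute (dX : Module.End (ZMod 3) (Fn3 (3 ^ r) (3 ^ s))) (-(1 + dY)) :=
    comm1 _ _ (comm hL)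
  have e1 := (hc.pow_pow i j).eq
  have e2 := pow_mul_oN _ _ (dX_oN (r := r) (s := s)) i
  have e3 := pow_mul_oN _ _ (dY_oN (r := r) (s := s)) j
  have e : (dX ^ i * dY ^ j : Module.End (ZMod 3) (Fn3 (3 ^ r) (3 ^ s))) * oN =
      ((-(1 + dY)) ^ j * (-(1 + dX)) ^ i * oN) * (dX ^ i * dY ^ j) := by
    calc (dX ^ i * dY ^ j : Module.End (ZMod 3) (Fn3 (3 ^ r) (3 ^ s))) * oN
        = dX ^ i * (dY ^ j * oN) := mul_assoc _ _ _
      _ = (dX ^ i * (-(1 + dY)) ^ j) * oN * dY ^ j := by rw [e3]; simp only [mul_assoc]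
      _ = (-(1 + dY)) ^ j * (dX ^ i * oN) * dY ^ j := by rw [e1]; simp only [mul_assoc]
      _ = _ := by rw [e2]; simp only [mul_assoc]
  rw [← Module.End.mul_apply, e, Module.End.mul_apply, hF i j hij, map_zero]

/-- `O` lowers by `k` and commutes with `oN` up to the sign `e` and lowering `k + 1`. -/
private def An (O : Module.End (ZMod 3) (Fn3 (3 ^ r) (3 ^ s))) (k : ℤ) (e : ZMod 3) : Prop :=
  Lw O k ∧ Lw (O * oN - e • (oN * O)) (k + 1)

private theorem an_mul (hL : S3Low0) {O O' : Module.End (ZMod 3) (Fn3 (3 ^ r) (3 ^ s))}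
    {k k' l : ℤ} {e e' e'' : ZMod 3} (h : An O k e) (h' : An O' k' e') (hl : k + k' = l)
    (he : e * e' = e'') : An (O * O') l e'' := by
  subst hl he
  refine ⟨lw_mul hL h.1 h'.1 rfl, ?_⟩
  have key : O * O' * oN - (e * e') • (oN * (O * O')) =
      O * (O' * oN - e' • (oN * O')) + e' • ((O * oN - e • (oN * O)) * O') := by
    rw [mul_sub, sub_mul, smul_sub, mul_smul_comm, smul_mul_assoc, smul_smul, mul_comm e' e]
    simp only [mul_assoc]
    abel
  rw [key]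
  exact lw_add hL (lw_mul hL h.1 h'.2 (by ring))
    (lw_smul hL _ (lw_mul hL h.2 h'.1 (by ring)))

private theorem an_add (hL : S3Low0) {O O' : Module.End (ZMod 3) (Fn3 (3 ^ r) (3 ^ s))}
    {k : ℤ} {e : ZMod 3} (h : An O k e) (h' : An O' k e) : An (O + O') k e := by
  refine ⟨lw_add hL h.1 h'.1, ?_⟩
  have key : (O + O') * oN - e • (oN * (O + O')) =
      (O * oN - e • (oN * O)) + (O' * oN - e • (oN * O')) := by
    rw [add_mul, mul_add, smul_add]
    abel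
  rw [key]
  exact lw_add hL h.2 h'.2

private theorem an_neg (hL : S3Low0) {O : Module.End (ZMod 3) (Fn3 (3 ^ r) (3 ^ s))}
    {k : ℤ} {e : ZMod 3} (h : An O k e) : An (-O) k e := by
  refine ⟨lw_neg hL h.1, ?_⟩
  have key : (-O) * oN - e • (oN * (-O)) = -(O * oN - e • (oN * O)) := by
    rw [neg_mul_end, mul_neg_end, smul_neg]
    abel
  rw [key]
  exact lw_neg hL h.2

private theorem an_of (hL : S3Low0) {D : Module.End (ZMod 3) (Fn3 (3 ^ r) (3 ^ s))}
    (h1 : Lw D 1) (h : D * oN = -(1 + D) * oN * D) : An D 1 (-1) := by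
  refine ⟨h1, ?_⟩
  have key : D * oN - (-1 : ZMod 3) • (oN * D) = -(D * oN * D) := by
    rw [neg1_smul, sub_neg_eq_add]
    exact ring5 (R := Module.End (ZMod 3) (Fn3 (3 ^ r) (3 ^ s))) D oN h
  rw [key]
  exact lw_neg hL (lw_mul hL (lw_mul hL h1 (lw_oN hL) (by norm_num : (1 : ℤ) + 0 = 1)) h1
    (by norm_num))

end

theorem hLw1 (hLow0 : S3Low0) (hNf : S3Nf) (hExp : S3Exp) : S3Lw1 := by
  intro r s
  refine ⟨?_, ?_, ?_, ?_, lw_oN hLow0, ?_, ?_⟩
  · intro a b c d had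
    obtain ⟨ha, hd, m, hm⟩ := ex_m a d had
    obtain ⟨β, hb⟩ := ex_b a b ha
    obtain ⟨γ, hc⟩ := ex_b d c hd
    have h2 := nf2 (r := r) (s := s) hLow0 hNf a b c d m β γ ha hd hm hb hc
    have e : (op3 a b c d : Module.End (ZMod 3) (Fn3 (3 ^ r) (3 ^ s))) =
        (op3 a b c d - 1 - (β : ZMod 3) • dX - (γ : ZMod 3) • dY) +
          (1 + (β : ZMod 3) • dX + (γ : ZMod 3) • dY) := by abel
    rw [e]
    refine lw_add hLow0 (lw_mono hLow0 h2 (by norm_num)) (lw_add hLow0 (lw_add hLow0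
      (lw_one hLow0) (lw_mono hLow0 (lw_smul hLow0 _ (lw_dX hLow0)) (by norm_num)))
      (lw_mono hLow0 (lw_smul hLow0 _ (lw_dY hLow0)) (by norm_num)))
  · have h2 := nf2 (r := r) (s := s) hLow0 hNf 1 0 1 1 0 0 1 (by norm_num) (by norm_num)
      (by norm_num) (by norm_num) (by norm_num)
    rw [Nat.cast_zero, Nat.cast_one, zero_smul, one_smul, sub_zero] at h2
    exact h2
  · have h2 := nf2 (r := r) (s := s) hLow0 hNf (-2) 1 (-1) 4 1 4 2 (by decide) (by decide)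
      (by decide) (by decide) (by decide)
    have e4 : ((4 : ℕ) : ZMod 3) = 1 := by decide
    have e2 : ((2 : ℕ) : ZMod 3) = -1 := by decide
    rw [e4, e2, one_smul, neg1_smul, sub_neg_eq_add] at h2
    exact h2
  · have h2 := nf2 (r := r) (s := s) hLow0 hNf (-2) (-1) (-1) (-5) 1 5 2 (by decide)
      (by decide) (by decide) (by decide) (by decide)
    have e5 : ((5 : ℕ) : ZMod 3) = -1 := by decide
    have e2 : ((2 : ℕ) : ZMod 3) = -1 := by decide
    rw [e5, e2, neg1_smul, neg1_smul, sub_neg_eq_add, sub_neg_eq_add] at h2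
    exact h2
  · have hX : An (dX : Module.End (ZMod 3) (Fn3 (3 ^ r) (3 ^ s))) 1 (-1) :=
      an_of hLow0 (lw_dX hLow0) dX_oN
    have hY : An (dY : Module.End (ZMod 3) (Fn3 (3 ^ r) (3 ^ s))) 1 (-1) :=
      an_of hLow0 (lw_dY hLow0) dY_oN
    have hX2 : An (dX ^ 2 : Module.End (ZMod 3) (Fn3 (3 ^ r) (3 ^ s))) 2 1 := by
      rw [pow_two]; exact an_mul hLow0 hX hX (by norm_num) (by decide)
    have hX3 : An (dX ^ 3 : Module.End (ZMod 3) (Fn3 (3 ^ r) (3 ^ s))) 3 (-1) := by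
      rw [pow_succ]; exact an_mul hLow0 hX2 hX (by norm_num) (by decide)
    have hY2 : An (dY ^ 2 : Module.End (ZMod 3) (Fn3 (3 ^ r) (3 ^ s))) 2 1 := by
      rw [pow_two]; exact an_mul hLow0 hY hY (by norm_num) (by decide)
    have hY3 : An (dY ^ 3 : Module.End (ZMod 3) (Fn3 (3 ^ r) (3 ^ s))) 3 (-1) := by
      rw [pow_succ]; exact an_mul hLow0 hY2 hY (by norm_num) (by decide)
    have hLo : An (Lo : Module.End (ZMod 3) (Fn3 (3 ^ r) (3 ^ s))) 4 1 := by
      refine an_neg hLow0 (an_add hLow0 (an_add hLow0 ?_ ?_) ?_)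
      · exact an_mul hLow0 hX3 hY (by norm_num) (by decide)
      · exact an_mul hLow0 hX2 hY2 (by norm_num) (by decide)
      · exact an_mul hLow0 hX hY3 (by norm_num) (by decide)
    have h5 := hLo.2
    rw [one_smul] at h5
    exact lw_mono hLow0 h5 (by norm_num)
  · intro F
    rw [oN_apply, neg_zero, neg_zero]

end Pool.Agent.Helper37.W3
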